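import Pool.Agent.Lib.MP_52c00a_gt.Proof

/-!
# Rational points on components of surface group character varieties: a negative answer

The definitions are in `Pool.Agent.Lib.MP_52c00a_gt.Defs`; the proof is in
`Pool.Agent.Lib.MP_52c00a_gt.Proof`.
-/

set_option autoImplicit false

open Pool.Agent.Lib.MP_52c00a_gt

namespace Pool.Agent.Results.MP_52c00a_gt.ProjectiveUnitary

/-- **Negative answer.**  Let `G = PU_3` for `ℚ(i)/ℚ`.  For every genus `g ≥ 2` and every
conjugation-stable Zariski dense `Ω ⊆ Hom(π₁(S_g), G(ℝ))` there is a connected component of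
`Ω / G(ℝ)` containing no class of a representation conjugate into `G(ℚ)`. -/
theorem result (g : ℕ) (hg : 2 ≤ g) (Ω : Set (Rep g))
    (_hconj : ∀ ρ ∈ Ω, ∀ ρ', IsConjRep ρ ρ' → ρ' ∈ Ω) (hdense : IsZariskiDense Ω) :
    ∃ x : CharQuotient Ω, ∀ ρ : Ω,
      classOf Ω ρ ∈ connectedComponent x → ¬ IsConjIntoRational (ρ : Rep g) :=
  main g hg Ω _hconj hdense

end Pool.Agent.Results.MP_52c00a_gt.ProjectiveUnitary
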